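import Pool.Agent.helper45.BR.Spec

/-!
# Project br, module WND: winding numbers vanish in the unbounded component
-/

set_option autoImplicit false

open Complex Metric Set Filter Topology MeasureTheory MPS Pool.Agent.helper98.ILF
  Pool.Agent.helper16.Multibrot

noncomputable section

namespace BR

theorem WND_mem (a b : ℂ) (t : ℝ) (ht : t ∈ Icc (0 : ℝ) 1) : a + (t : ℂ) * (b - a) ∈ segment ℝ a b := by
  rw [segment_eq_image']
  refine ⟨t, ht, ?_⟩
  simp only [Complex.real_smul]

theorem WND_int (a b p : ℂ) (h : p ∉ segment ℝ a b) :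
    IntervalIntegrable (fun t : ℝ => (b - a) * (1 / (a + (t : ℂ) * (b - a) - p))) volume 0 1 := by
  apply ContinuousOn.intervalIntegrable
  rw [Set.uIcc_of_le zero_le_one]
  apply ContinuousOn.mul continuousOn_const
  apply ContinuousOn.div continuousOn_const
  · exact (Continuous.sub (continuous_const.add (Complex.continuous_ofReal.mul continuous_const))
      continuous_const).continuousOn
  · intro t ht h0
    apply h
    have h1 : a + (t : ℂ) * (b - a) = p := sub_eq_zero.mp h0
    rw [← h1]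
    exact WND_mem a b t ht

theorem WND_seg (a b p p0 : ℂ) (h : ∀ z ∈ segment ℝ a b, ‖p - p0‖ < ‖z - p0‖) :
    sI (fun z => 1 / (z - p)) a b - sI (fun z => 1 / (z - p0)) a b =
      Complex.log ((b - p) / (b - p0)) - Complex.log ((a - p) / (a - p0)) := by
  have hp : p ∉ segment ℝ a b := fun hp => lt_irrefl _ (h p hp)
  have hp0 : p0 ∉ segment ℝ a b := fun hp => by
    have := h p0 hp
    rw [sub_self, norm_zero] at this
    exact absurd this (not_lt.mpr (norm_nonneg _))
  unfold sI
  rw [← intervalIntegral.integral_sub (WND_int a b p hp) (WND_int a b p0 hp0)]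
  have key : ∀ t ∈ uIcc (0 : ℝ) 1, HasDerivAt
      (fun t : ℝ => Complex.log ((a + (t : ℂ) * (b - a) - p) / (a + (t : ℂ) * (b - a) - p0)))
      ((b - a) * (1 / (a + (t : ℂ) * (b - a) - p)) - (b - a) * (1 / (a + (t : ℂ) * (b - a) - p0))) t := by
    intro t ht
    rw [Set.uIcc_of_le zero_le_one] at ht
    set z : ℂ := a + (t : ℂ) * (b - a) with hz
    have hzm : z ∈ segment ℝ a b := WND_mem a b t ht
    have hlt := h z hzm
    have hz0 : z - p0 ≠ 0 := by
      intro h0
      rw [h0, norm_zero] at hlt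
      exact absurd hlt (not_lt.mpr (norm_nonneg _))
    have hzp : z - p ≠ 0 := by
      intro h0
      apply hp
      rw [← sub_eq_zero.mp h0]
      exact hzm
    have h1 : HasDerivAt (fun t : ℝ => a + (t : ℂ) * (b - a)) (b - a) t := by
      have h2 : HasDerivAt (fun t : ℝ => (t : ℂ)) 1 t := Complex.ofRealCLM.hasDerivAt
      have h3 := (h2.mul_const (b - a)).const_add a
      rw [one_mul] at h3
      exact h3
    have h4 := (h1.sub_const p).div (h1.sub_const p0) hz0
    have h5 : z - p = (z - p0) * (1 + (p0 - p) / (z - p0)) := by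
      field_simp
      ring
    have hsl : (z - p) / (z - p0) ∈ Complex.slitPlane := by
      rw [h5, mul_div_cancel_left₀ _ hz0]
      apply Complex.mem_slitPlane_of_norm_lt_one
      rw [norm_div, div_lt_one (norm_pos_iff.mpr hz0), ← norm_neg, neg_sub]
      exact hlt
    have h6 := h4.clog_real hsl
    refine h6.congr_deriv ?_
    simp only [Pi.div_apply]
    rw [← hz]
    field_simp
  have h7 := intervalIntegral.integral_eq_sub_of_hasDerivAt key
    ((WND_int a b p hp).sub (WND_int a b p0 hp0))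
  rw [h7]
  simp

theorem WND_loc (γ : ℕ → ℂ) (m : ℕ) (p p0 : ℂ) (h0 : γ 0 = γ m)
    (h : ∀ z ∈ pS γ m, ‖p - p0‖ < ‖z - p0‖) :
    pI (fun z => 1 / (z - p)) γ m = pI (fun z => 1 / (z - p0)) γ m := by
  rw [← sub_eq_zero]
  unfold pI
  rw [← Finset.sum_sub_distrib]
  have h1 : ∀ i ∈ Finset.range m, sI (fun z => 1 / (z - p)) (γ i) (γ (i + 1)) -
      sI (fun z => 1 / (z - p0)) (γ i) (γ (i + 1)) =
      Complex.log ((γ (i + 1) - p) / (γ (i + 1) - p0)) - Complex.log ((γ i - p) / (γ i - p0)) := by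
    intro i hi
    apply WND_seg
    intro z hz
    apply h
    unfold pS
    simp only [mem_iUnion]
    exact ⟨i, hi, hz⟩
  rw [Finset.sum_congr rfl h1]
  rw [Finset.sum_range_sub (fun i => Complex.log ((γ i - p) / (γ i - p0)))]
  rw [h0, sub_self]

theorem WND_cpt (γ : ℕ → ℂ) (m : ℕ) : IsCompact (pS γ m) := by
  unfold pS
  apply Finset.isCompact_biUnion
  intro i _
  rw [segment_eq_image']
  exact isCompact_Icc.image (by fun_prop)

theorem WND_bd (γ : ℕ → ℂ) (m : ℕ) (q : ℂ) (r : ℝ) (hr : 0 < r) (h : ∀ z ∈ pS γ m, r ≤ ‖z - q‖) :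
    ‖pI (fun z => 1 / (z - q)) γ m‖ ≤ (∑ i ∈ Finset.range m, ‖γ (i + 1) - γ i‖) / r := by
  unfold pI
  refine (norm_sum_le _ _).trans ?_
  rw [Finset.sum_div]
  apply Finset.sum_le_sum
  intro i hi
  unfold sI
  have h1 : ∀ t ∈ Set.uIoc (0 : ℝ) 1,
      ‖(γ (i + 1) - γ i) * (1 / (γ i + (t : ℂ) * (γ (i + 1) - γ i) - q))‖ ≤ ‖γ (i + 1) - γ i‖ / r := by
    intro t ht
    rw [Set.uIoc_of_le zero_le_one] at ht
    have h2 : r ≤ ‖γ i + (t : ℂ) * (γ (i + 1) - γ i) - q‖ := by
      apply h
      unfold pS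
      simp only [mem_iUnion]
      exact ⟨i, hi, WND_mem _ _ t ⟨ht.1.le, ht.2⟩⟩
    rw [norm_mul, norm_div, norm_one, mul_one_div]
    exact div_le_div_of_nonneg_left (norm_nonneg _) hr h2
  have h3 := intervalIntegral.norm_integral_le_of_norm_le_const h1
  rw [sub_zero, abs_one, mul_one] at h3
  exact h3

theorem WND : WND_stmt := by
  intro γ m p hγ hp hub
  set Γ := pS γ m with hΓ
  have hcpt : IsCompact Γ := WND_cpt γ m
  have hopen : IsOpen Γᶜ := hcpt.isClosed.isOpen_compl
  set Cp := connectedComponentIn Γᶜ p with hCp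
  have hCo : IsOpen Cp := hopen.connectedComponentIn
  have hCc : IsPreconnected Cp := isPreconnected_connectedComponentIn
  have hpC : p ∈ Cp := mem_connectedComponentIn hp
  have hCs : Cp ⊆ Γᶜ := connectedComponentIn_subset _ _
  have hloc : ∀ q ∈ Cp, (fun w => pI (fun z => 1 / (z - w)) γ m) =ᶠ[𝓝 q]
      fun _ => pI (fun z => 1 / (z - q)) γ m := by
    intro q hq
    obtain ⟨ε, hε, hball⟩ := Metric.isOpen_iff.mp hopen q (hCs hq)
    filter_upwards [Metric.ball_mem_nhds q hε] with w hw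
    apply WND_loc γ m w q hγ
    intro z hz
    by_contra hcon
    push Not at hcon
    have hzb : z ∈ ball q ε := by
      rw [mem_ball, dist_eq_norm]
      rw [mem_ball, dist_eq_norm] at hw
      exact lt_of_le_of_lt hcon hw
    exact hball hzb hz
  have hconst : ∀ q ∈ Cp, pI (fun z => 1 / (z - q)) γ m = pI (fun z => 1 / (z - p)) γ m := by
    intro q hq
    apply hCo.is_const_of_deriv_eq_zero (𝕜 := ℂ) (f := fun w => pI (fun z => 1 / (z - w)) γ m) hCc _ _ hq hpC
    · intro w hw
      exact ((hloc w hw).differentiableAt_iff.mpr (differentiableAt_const _)).differentiableWithinAt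
    · intro w hw
      rw [(hloc w hw).deriv_eq, deriv_const]
      rfl
  obtain ⟨M, hM⟩ := hcpt.isBounded.exists_norm_le
  set L : ℝ := ∑ i ∈ Finset.range m, ‖γ (i + 1) - γ i‖ with hL
  have hL0 : 0 ≤ L := Finset.sum_nonneg fun i _ => norm_nonneg _
  have hle : ∀ r : ℝ, 0 < r → ‖pI (fun z => 1 / (z - p)) γ m‖ ≤ L / r := by
    intro r hr
    have hex : ∃ q ∈ Cp, M + r < ‖q‖ := by
      by_contra hcon
      push Not at hcon
      exact hub (isBounded_iff_forall_norm_le.mpr ⟨M + r, hcon⟩)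
    obtain ⟨q, hq, hqr⟩ := hex
    rw [← hconst q hq]
    apply WND_bd γ m q r hr
    intro z hz
    have h1 := hM z hz
    have h2 : ‖q‖ ≤ ‖z‖ + ‖z - q‖ := by
      calc ‖q‖ = ‖z - (z - q)‖ := by rw [sub_sub_cancel]
        _ ≤ ‖z‖ + ‖z - q‖ := norm_sub_le _ _
    linarith
  by_contra hne
  have hpos : 0 < ‖pI (fun z => 1 / (z - p)) γ m‖ := norm_pos_iff.mpr hne
  have h3 := hle (L / ‖pI (fun z => 1 / (z - p)) γ m‖ + 1) (by positivity)
  rw [le_div_iff₀ (by positivity)] at h3
  rw [mul_add, mul_div_cancel₀ _ hpos.ne'] at h3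
  linarith

end BR
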