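import Pool.Agent.helper59.BR.SpecH
import Pool.Agent.helper85.FIB.QES

/-!
# Project BR (MP_baa4d7_al), block H: row HAX (expansion of the contribution of a subsection)
-/

set_option autoImplicit false

namespace Pool.Agent.BR

open Pool.Agent.helper58.DC Pool.Agent.DI Pool.Agent.GR Pool.Agent.OB Pool.Agent.DR Pool.Agent.FI Pool.Agent.FI3 Pool.Agent.FI4 Pool.Agent.LE

theorem HAX (hQRS : QRS_stmt) (hQCE : QCE_stmt) (hQEI : QEI_stmt) (hZAX : ZAX_stmt) (hBLE : BLE_stmt)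
    (hQEK : QEK_stmt) (hB2 : B2_stmt) : HAX_stmt := by
  intro p M hS G _ _ θ u ψ hψ ψ' hψ'
  have hQES : QES_stmt := QES hQRS hQEK hB2
  have huK : u ∈ Cz (⊤ : Subgroup G) u := mem_Cz.2 ⟨Subgroup.mem_top u, rfl⟩
  have hcen : Cen (Cz (⊤ : Subgroup G) u) u := fun l hl => ((mem_Cz.1 hl).2).symm
  generalize hK : Cz (⊤ : Subgroup G) u = K at huK hcen
  have hBC : BC M K (Bl M K θ) := by
    obtain ⟨h1, -, -, -, -, -, -, h2⟩ := hBLE p M hS G K K le_rfl θ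
    rw [h2] at h1
    exact h1
  have hfinI : (IrrOn K).Finite := IrrOn_fin K
  have hsub : Bl M K θ ⊆ IrrOn K := fun η h => h.1
  have hfinB : (Bl M K θ).Finite := hfinI.subset hsub
  have hfinV : {v : G | v ∈ K ∧ PReg p v}.Finite := Set.toFinite _
  have hdiv : ∀ (w : G), w ∈ K → Cen K w → ∀ η ∈ IrrOn K, ∀ v : G, η (w * v) = η w / η 1 * η v := by
    intro w hw hc η hη v
    have h2 := (hQCE G K w hw hc η hη).1 v
    have h3 : η 1 ≠ 0 := IrrOn_ne hη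
    rw [div_mul_eq_mul_div, eq_div_iff h3]
    exact h2
  have hcen' : Cen K u⁻¹ := by
    intro l hl
    have h1 := hcen l hl
    have h2 : u⁻¹ * (l * u) * u⁻¹ = u⁻¹ * (u * l) * u⁻¹ := by rw [h1]
    have h3 : u⁻¹ * (l * u) * u⁻¹ = u⁻¹ * l := by group
    have h4 : u⁻¹ * (u * l) * u⁻¹ = l * u⁻¹ := by group
    rw [h3, h4] at h2
    exact h2.symm
  have hev : ∀ v ∈ K, ev ψ (eS K (Bl M K θ)) (u * v) =
      ∑ᶠ η ∈ Bl M K θ, mt K ψ η * (η u / η 1) * η v := by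
    intro v hv
    rw [(hQES G ⊤ ψ hψ).1 K le_top (Bl M K θ) hsub (u * v) (K.mul_mem huK hv)]
    refine finsum_mem_congr rfl fun η hη => ?_
    rw [hdiv u huK hcen η hη.1 v]
    ring
  have hps : ∀ v ∈ K, ψ' (u * v)⁻¹ =
      ∑ᶠ η' ∈ IrrOn K, mt K ψ' η' * (η' u⁻¹ / η' 1) * η' v⁻¹ := by
    intro v hv
    have h1 : (u * v)⁻¹ = u⁻¹ * v⁻¹ := by
      have h2 := hcen v hv
      rw [← h2, mul_inv_rev]
    rw [h1, (hQRS G ⊤ K le_top ψ' hψ').2 (u⁻¹ * v⁻¹) (K.mul_mem (K.inv_mem huK) (K.inv_mem hv))]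
    refine finsum_mem_congr rfl fun η' hη' => ?_
    rw [hdiv u⁻¹ (K.inv_mem huK) hcen' η' hη' v⁻¹]
    ring
  have h1 : ∀ v ∈ {v : G | v ∈ K ∧ PReg p v},
      ev ψ (eS K (Bl M K θ)) (u * v) * ψ' (u * v)⁻¹ =
      ∑ᶠ η' ∈ IrrOn K, mt K ψ' η' * (η' u⁻¹ / η' 1) *
        ∑ᶠ η ∈ Bl M K θ, mt K ψ η * (η u / η 1) * (η v * η' v⁻¹) := by
    intro v hv
    rw [hev v hv.1, hps v hv.1, mul_finsum_mem' _ _ hfinI]
    refine finsum_mem_congr rfl fun η' _ => ?_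
    have h2 : ∑ᶠ η ∈ Bl M K θ, mt K ψ η * (η u / η 1) * (η v * η' v⁻¹) =
        (∑ᶠ η ∈ Bl M K θ, mt K ψ η * (η u / η 1) * η v) * η' v⁻¹ := by
      rw [finsum_mem_mul' _ _ hfinB]
      refine finsum_mem_congr rfl fun η _ => ?_
      ring
    rw [h2]
    ring
  have h3 : ∀ η' ∈ IrrOn K, ∑ᶠ v ∈ {v : G | v ∈ K ∧ PReg p v}, mt K ψ' η' * (η' u⁻¹ / η' 1) *
        ∑ᶠ η ∈ Bl M K θ, mt K ψ η * (η u / η 1) * (η v * η' v⁻¹) =
      mt K ψ' η' * (η' u⁻¹ / η' 1) * ∑ᶠ η ∈ Bl M K θ, mt K ψ η * (η u / η 1) *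
        ∑ᶠ v ∈ {v : G | v ∈ K ∧ PReg p v}, η v * η' v⁻¹ := by
    intro η' _
    rw [← mul_finsum_mem' _ _ hfinV, finsum_mem_comm _ hfinV hfinB]
    congr 1
    refine finsum_mem_congr rfl fun η _ => ?_
    rw [mul_finsum_mem' _ _ hfinV]
  have h4 : PP p M θ ψ ψ' u = ∑ᶠ η' ∈ IrrOn K, mt K ψ' η' * (η' u⁻¹ / η' 1) *
      ∑ᶠ η ∈ Bl M K θ, mt K ψ η * (η u / η 1) * EE p K η η' := by
    unfold PP EE
    rw [hK, finsum_mem_congr rfl h1, finsum_mem_comm _ hfinV hfinI, finsum_mem_congr rfl h3, div_eq_mul_inv,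
      finsum_mem_mul' _ _ hfinI]
    refine finsum_mem_congr rfl fun η' _ => ?_
    rw [mul_assoc]
    congr 1
    rw [finsum_mem_mul' _ _ hfinB]
    refine finsum_mem_congr rfl fun η _ => ?_
    rw [div_eq_mul_inv (∑ᶠ v ∈ {v : G | v ∈ K ∧ PReg p v}, η v * η' v⁻¹), mul_assoc (mt K ψ η * (η u / η 1))]
  rw [h4]
  refine finsum_congr fun η' => ?_
  by_cases h5 : η' ∈ Bl M K θ
  · have h6 : η' ∈ IrrOn K := h5.1
    simp only [h5, h6, finsum_true]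
    rw [hZAX p M hS G K θ η' h5 u huK hcen ψ hψ]
  · by_cases h6 : η' ∈ IrrOn K
    · simp only [h5, h6, finsum_true, finsum_false]
      have h7 : ∑ᶠ η ∈ Bl M K θ, mt K ψ η * (η u / η 1) * EE p K η η' = 0 := by
        refine finsum_mem_eq_zero_of_forall_eq_zero fun η hη => ?_
        rw [((hQEI p M hS G K (Bl M K θ) hBC).2.1 η hη η' h6 h5).1, mul_zero]
      rw [h7, mul_zero]
    · simp only [h5, h6, finsum_false]

end Pool.Agent.BR
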