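import Pool.Agent.helper45.BR.Spec

/-!
# Project br, module CRV: the inequality for the vector field on the basin of infinity
-/

set_option autoImplicit false

open Complex Metric Set Filter Topology MeasureTheory MPS Pool.Agent.helper98.ILF
  Pool.Agent.helper16.Multibrot

noncomputable section

namespace BR

theorem CRV (hCRI : CRI_stmt) (hLMV : LMV_stmt) : CRV_stmt := by
  intro n c r hn hr hball z a b ha hb hz hza hzb
  have hc : c ∈ multibrot n := hball (mem_ball_self hr)
  obtain ⟨h1, h2, -⟩ := hLMV n c hn hc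
  have hev : ∀ᶠ N in atTop, ‖(SN n c N (z + a) - SN n c N z) / a -
      (SN n c N (z + b) - SN n c N z) / b‖ ≤ 4000 / r * (1 + |Real.log (‖a‖ / ‖b‖)|) := by
    filter_upwards [h1 z hz, h1 (z + a) hza, h1 (z + b) hzb] with N e1 e2 e3
    exact hCRI n N c r hn hr hball z a b ha hb e1 e2 e3
  have hlim : Tendsto (fun N => ‖(SN n c N (z + a) - SN n c N z) / a -
      (SN n c N (z + b) - SN n c N z) / b‖) atTop
      (𝓝 ‖(VV n c (z + a) - VV n c z) / a - (VV n c (z + b) - VV n c z) / b‖) :=
    ((((h2 (z + a) hza).sub (h2 z hz)).div_const a).sub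
      (((h2 (z + b) hzb).sub (h2 z hz)).div_const b)).norm
  exact le_of_tendsto hlim hev

end BR
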